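import Pool.Agent.H90.HBCycProof

set_option autoImplicit false

namespace Pool.Agent.Results.MP_28939e_an.NoOrderedCycle

open Pool.Agent.H90.HBCycDefs

/-- A tuning with a cycle (in dimension one, hence in `Ω`) but with no `σ_K`-ordered
one-dimensional cycle of any length `K ≥ 3`. -/
theorem result : ∃ (μ L γ β : ℝ), 0 < μ ∧ μ < L ∧ 0 < γ ∧ 0 < β ∧ β < 1 ∧
    γ * L < 2 * (1 + β) ∧
    (∃ (K : ℕ) (f : ℝ → ℝ) (x : ℕ → ℝ), 3 ≤ K ∧ InF μ L f ∧ IsCycleSeq γ β f K x) ∧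
    ¬ ∃ (K : ℕ) (f : ℝ → ℝ) (x : ℕ → ℝ), 3 ≤ K ∧ InF μ L f ∧ IsCycleSeq γ β f K x ∧
      HasPattern K x := by
  refine ⟨31/10, 37/10, 1, 9/10, by norm_num, by norm_num, by norm_num,
    by norm_num, by norm_num, by norm_num, ?_, ?_⟩
  · obtain ⟨f, hf, hc⟩ := Pool.Agent.H90.HBCycProof.star
    exact ⟨5, f, _, by norm_num, hf,
      (Pool.Agent.H90.HBCycProof.seq_iff _ _ _ _ (by norm_num) _).2 hc⟩
  · rintro ⟨K, f, x, hK, hf, hc, hp⟩
    exact Pool.Agent.H90.HBCycProof.no_pattern K hK f hf x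
      ((Pool.Agent.H90.HBCycProof.seq_iff _ _ _ _ (by omega) _).1 hc) hp

end Pool.Agent.Results.MP_28939e_an.NoOrderedCycle
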